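import Pool.Agent.Y958.RM.Stm

set_option autoImplicit false

/-!
Project RM: multiples of the random integers `N` minus few elements of a set which meets every
`[x, l x]` (helper454, job RM-LASH; the proof follows `las_gen` of helper885).
-/

namespace Pool.Agent.Y454.RM
open Finset
open Pool.Agent.H807R2.Dav
open Pool.Agent.H373R2.T7
open Pool.Agent.W93.DG
open Pool.Agent.Y885

lemma shift_card (J : Finset ℕ) (t : ℕ) (p q : ℕ → Prop) [DecidablePred p] [DecidablePred q]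
    (h : ∀ j, p j → q (j + t)) :
    ((J.filter p).card : ℝ) ≤ (((J.image (fun j => j + t)).filter q).card : ℝ) := by
  have h1 : (J.filter p).image (fun j => j + t) ⊆ (J.image (fun j => j + t)).filter q := by
    intro x hx
    obtain ⟨j, hj, rfl⟩ := mem_image.1 hx
    rw [mem_filter] at hj
    exact mem_filter.2 ⟨mem_image_of_mem _ hj.1, h j hj.2⟩
  have h2 := card_le_card h1
  rw [card_image_of_injective _ (fun a b h => by simpa using h)] at h2
  exact_mod_cast h2

/-- shifting the positions -/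
lemma dense_shift (c₀ M : ℝ) (hc₀ : 0 ≤ c₀) (K e t : ℕ) (hK : 1 ≤ K) (ht : t ≤ e)
    (he : (e : ℝ) ≤ M * Real.log ((K + e : ℕ) : ℝ)) (J : Finset ℕ) (hD : Pool.Agent.Y885.Dense 20 c₀ K J) :
    Pool.Agent.Y885.Dense 20 (c₀ + M) (K + e) (J.image (fun j => j + t)) := by
  obtain ⟨h1, h2, h3⟩ := hD
  have hlog : Real.log K ≤ Real.log ((K + e : ℕ) : ℝ) :=
    Real.log_le_log (by exact_mod_cast hK) (by exact_mod_cast (by omega : K ≤ K + e))
  have hc : c₀ * Real.log K ≤ c₀ * Real.log ((K + e : ℕ) : ℝ) := mul_le_mul_of_nonneg_left hlog hc₀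
  have he0 : (0 : ℝ) ≤ e := Nat.cast_nonneg _
  have hK0 : 0 ≤ c₀ * Real.log ((K + e : ℕ) : ℝ) := mul_nonneg hc₀ (Real.log_natCast_nonneg _)
  have h20 : ((20 : ℕ) : ℝ) = 20 := by norm_num
  rw [h20] at h1 h2 h3
  refine ⟨fun w hw => ?_, fun w hw => ?_, ?_⟩
  · rw [h20, add_mul c₀ M]
    rcases Nat.lt_or_ge w e with h | h
    · have g1 : (w : ℝ) ≤ e := by exact_mod_cast h.le
      have g3 : (0 : ℝ) ≤ (((J.image (fun j => j + t)).filter (fun i => 0 ≤ i ∧ i < w)).card : ℝ) :=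
        Nat.cast_nonneg _
      linarith
    · obtain ⟨m, hm⟩ : ∃ m, w = m + e := ⟨w - e, by omega⟩
      have g1 := h1 m (by omega)
      have g2 := shift_card J t (fun i => 0 ≤ i ∧ i < m) (fun i => 0 ≤ i ∧ i < w)
        (fun j hj => ⟨Nat.zero_le _, by omega⟩)
      have g3 : (w : ℝ) = m + e := by exact_mod_cast hm
      have g4 : (1 / 2 + 3 / (20 : ℝ)) * w = (1 / 2 + 3 / (20 : ℝ)) * m + (1 / 2 + 3 / (20 : ℝ)) * e := by
        rw [g3]; ring
      rw [g4]
      linarith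
  · rw [h20, add_mul c₀ M]
    rcases Nat.lt_or_ge w e with h | h
    · have g1 : (w : ℝ) ≤ e := by exact_mod_cast h.le
      have g3 : (0 : ℝ) ≤ (((J.image (fun j => j + t)).filter
        (fun i => K + e + 1 - w ≤ i ∧ i < K + e + 1)).card : ℝ) := Nat.cast_nonneg _
      linarith
    · obtain ⟨m, hm⟩ : ∃ m, w = m + e := ⟨w - e, by omega⟩
      have g1 := h2 m (by omega)
      have g2 := shift_card J t (fun i => K + 1 - m ≤ i ∧ i < K + 1)
        (fun i => K + e + 1 - w ≤ i ∧ i < K + e + 1) (fun j hj => ⟨by omega, by omega⟩)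
      have g3 : (w : ℝ) = m + e := by exact_mod_cast hm
      have g4 : (3 / (20 : ℝ)) * w = (3 / (20 : ℝ)) * m + (3 / (20 : ℝ)) * e := by
        rw [g3]; ring
      rw [g4]
      linarith
  · rw [h20, add_mul c₀ M]
    have g2 := shift_card J t (fun i => 0 ≤ i ∧ i < K + 1)
      (fun i => 0 ≤ i ∧ i < K + e + 1) (fun j hj => ⟨Nat.zero_le _, by omega⟩)
    have g3 : ((K + e : ℕ) : ℝ) = K + e := by push_cast; ring
    have g4 : (3 / 5 + 3 / (20 : ℝ)) * ((K + e : ℕ) : ℝ) =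
        (3 / 5 + 3 / (20 : ℝ)) * K + (3 / 5 + 3 / (20 : ℝ)) * e := by
      rw [g3]; ring
    rw [g4]
    linarith

/-- the shifted sequence, extended downwards -/
def us (b h t : ℕ) (u : ℕ → ℕ) (j : ℕ) : ℕ :=
  if j < t then h * u 0 - b ^ t + b ^ j else h * u (j - t)

lemma us_step (b h t l : ℕ) (hb : 2 ≤ b) (u : ℕ → ℕ) (h1 : b ^ t ≤ h) (h2 : h < b ^ (t + 1)) (hl : l ≤ b)
    (hu2 : ∀ j, b ^ j ≤ u j) (hu3 : ∀ j, u j ≤ l * b ^ j) (hu4 : ∀ j, u j + b ^ j ≤ u (j + 1)) (j : ℕ) :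
    us b h t u j ≤ us b h t u (j + 1) ∧
    b ^ j ≤ b ^ 3 * (us b h t u (j + 1) - us b h t u j) ∧
    us b h t u (j + 1) - us b h t u j ≤ b ^ 3 * b ^ j := by
  have hb0 : 0 < b := by omega
  have hb3 : 1 ≤ b ^ 3 := Nat.one_le_pow _ _ hb0
  have hj0 : 0 < b ^ j := Nat.pow_pos hb0
  rcases Nat.lt_or_ge j t with hj | hj
  · -- below
    have hu0 : 1 ≤ u 0 := by simpa using hu2 0
    have hhu : b ^ t ≤ h * u 0 := h1.trans (Nat.le_mul_of_pos_right _ (by omega))
    have e1 : us b h t u j = h * u 0 - b ^ t + b ^ j := by unfold us; rw [if_pos hj]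
    have e2 : us b h t u (j + 1) = h * u 0 - b ^ t + b ^ (j + 1) := by
      unfold us
      rcases Nat.lt_or_ge (j + 1) t with h' | h'
      · rw [if_pos h']
      · have : j + 1 = t := by omega
        rw [if_neg (by omega), this, Nat.sub_self]
        omega
    have e3 : b ^ (j + 1) = b ^ j * b := pow_succ _ _
    have e4 : 2 * b ^ j ≤ b ^ j * b := by
      rw [mul_comm]
      exact Nat.mul_le_mul_left _ hb
    have e5 : us b h t u (j + 1) - us b h t u j = b ^ j * b - b ^ j := by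
      rw [e1, e2, e3]
      omega
    refine ⟨by rw [e1, e2, e3]; omega, ?_, ?_⟩
    · rw [e5]
      calc b ^ j ≤ b ^ j * b - b ^ j := by omega
        _ ≤ b ^ 3 * (b ^ j * b - b ^ j) := Nat.le_mul_of_pos_left _ (by omega)
    · rw [e5]
      calc b ^ j * b - b ^ j ≤ b ^ j * b := Nat.sub_le _ _
        _ ≤ b ^ j * b ^ 3 := Nat.mul_le_mul_left _ (Nat.le_self_pow (by norm_num) _)
        _ = b ^ 3 * b ^ j := mul_comm _ _
  · obtain ⟨i, hi⟩ : ∃ i, j = i + t := ⟨j - t, by omega⟩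
    have e1 : us b h t u j = h * u i := by
      unfold us
      rw [if_neg (by omega), hi, Nat.add_sub_cancel]
    have e2 : us b h t u (j + 1) = h * u (i + 1) := by
      unfold us
      rw [if_neg (by omega), show j + 1 - t = i + 1 by omega]
    have e5 : us b h t u (j + 1) - us b h t u j = h * (u (i + 1) - u i) := by
      rw [e1, e2, Nat.mul_sub]
    have e6 : b ^ j = b ^ i * b ^ t := by rw [hi, pow_add]
    have e7 := hu4 i
    refine ⟨by rw [e1, e2]; exact Nat.mul_le_mul_left _ (by omega), ?_, ?_⟩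
    · rw [e5, e6]
      calc b ^ i * b ^ t ≤ (u (i + 1) - u i) * h := Nat.mul_le_mul (by omega) h1
        _ = h * (u (i + 1) - u i) := mul_comm _ _
        _ ≤ b ^ 3 * (h * (u (i + 1) - u i)) := Nat.le_mul_of_pos_left _ (by omega)
    · rw [e5, e6]
      calc h * (u (i + 1) - u i) ≤ b ^ (t + 1) * (b * b ^ (i + 1)) := by
            apply Nat.mul_le_mul h2.le
            exact (Nat.sub_le _ _).trans ((hu3 (i + 1)).trans (Nat.mul_le_mul_right _ hl))
        _ = b ^ 3 * (b ^ i * b ^ t) := by ring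

theorem t_LASH : Pool.Agent.Y958.RM.LASH := by
  intro l hl V
  classical
  obtain ⟨b, hbl⟩ : ∃ b, b = 4 * l := ⟨_, rfl⟩
  rw [← hbl]
  have hb : 2 ≤ b := by omega
  have hbn : 0 < b := by omega
  obtain ⟨B, hB⟩ : ∃ B, B = b ^ 3 := ⟨_, rfl⟩
  have hB1 : 1 ≤ B := by rw [hB]; exact Nat.pow_pos hbn
  obtain ⟨κ, ε₁, hκ0, hε₁, _, hthin⟩ := thin_of b B 20 hb hB1 (by norm_num)
  obtain ⟨D, hD⟩ := exists_nat_ge (((V : ℝ) / κ ^ 2 + 1) / ε₁ + 40)
  have hVk : 0 < (V : ℝ) / κ ^ 2 + 1 := by positivity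
  have hD40 : 40 ≤ D := by
    have : (40 : ℝ) ≤ D := by
      have : 0 ≤ ((V : ℝ) / κ ^ 2 + 1) / ε₁ := by positivity
      linarith
    exact_mod_cast this
  have hDε : (V : ℝ) / κ ^ 2 + 1 ≤ ε₁ * D := by
    have : ((V : ℝ) / κ ^ 2 + 1) / ε₁ ≤ D := by linarith
    rw [div_le_iff₀ hε₁] at this
    linarith
  obtain ⟨C, hC⟩ := blocks2 b (2 * D) hb (by omega)
  obtain ⟨N₁, hN₁⟩ := loglog_num b hb
  refine ⟨C * 25, fun W => ?_⟩
  obtain ⟨c₀, K₀, hC⟩ := hC 0
  obtain ⟨c, K₁, hK₁⟩ := hthin ((c₀ + 2 * W : ℕ) : ℝ) (40 * ((V : ℝ) / κ ^ 2 + 1))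
  obtain ⟨K₃, hK₃⟩ : ∃ K₃, K₃ = K₀ + K₁ + 4 * b + 10 + 16 * W ^ 2 := ⟨_, rfl⟩
  refine ⟨c, N₁ + b ^ K₃, fun A hA N hN e he P hP => ?_⟩
  have hN0 : 0 < N := by
    have : 0 < b ^ K₃ := Nat.pow_pos hbn
    omega
  obtain ⟨K', hK'⟩ : ∃ K', K' = Nat.log b N + 1 := ⟨_, rfl⟩
  obtain ⟨K, hK⟩ : ∃ K, K = K' + e := ⟨_, rfl⟩
  rw [← hK', ← hK] at hP
  have hKK : K₃ ≤ K' := by
    have : K₃ ≤ Nat.log b N := Nat.le_log_of_pow_le (by omega) (by omega)
    omega
  have hKlow : b ^ (K' - 1) ≤ N := by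
    rw [hK', Nat.add_sub_cancel]
    exact Nat.pow_log_le_self b (by omega)
  have hKup : N < b ^ K' := by rw [hK']; exact Nat.lt_pow_succ_log_self (by omega) _
  have hK'r : (3 : ℝ) ≤ K' := by exact_mod_cast (by omega : 3 ≤ K')
  have hK'0 : (0 : ℝ) < K' := by linarith
  have hKr : (3 : ℝ) ≤ K := by exact_mod_cast (by omega : 3 ≤ K)
  -- the number of the extra positions
  have heK' : (e : ℝ) ≤ 2 * W * Real.log K' := by
    have g1 : Real.log N ≤ K' * K' := by
      have g2 : Real.log N ≤ K' * Real.log b := by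
        rw [← Real.log_pow]
        apply Real.log_le_log
        · exact_mod_cast hN0
        · exact_mod_cast hKup.le
      have g3 : Real.log b ≤ K' := by
        have g4 : Real.log b ≤ b := by
          have := Real.log_le_sub_one_of_pos (show (0 : ℝ) < b by exact_mod_cast hbn)
          linarith
        exact g4.trans (by exact_mod_cast (by omega : b ≤ K'))
      exact g2.trans (mul_le_mul_of_nonneg_left g3 hK'0.le)
    have g5 : Real.log (Real.log N) ≤ 2 * Real.log K' := by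
      have g6 : Real.log (Real.log N) ≤ Real.log ((K' : ℝ) * K') := by
        apply Real.log_le_log _ g1
        apply Real.log_pos
        have : b ≤ b ^ (K' - 1) := by
          calc b = b ^ 1 := (pow_one b).symm
            _ ≤ b ^ (K' - 1) := Nat.pow_le_pow_right hbn (by omega)
        exact_mod_cast (by omega : 1 < N)
      rw [Real.log_mul hK'0.ne' hK'0.ne'] at g6
      linarith
    calc (e : ℝ) ≤ W * Real.log (Real.log N) := he
      _ ≤ W * (2 * Real.log K') := mul_le_mul_of_nonneg_left g5 (Nat.cast_nonneg _)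
      _ = _ := by ring
  have heK : e ≤ K' := by
    obtain ⟨s, hs⟩ : ∃ s, s = Real.sqrt K' := ⟨_, rfl⟩
    have hs2 : s * s = K' := by rw [hs]; exact Real.mul_self_sqrt hK'0.le
    have hs0 : 0 < s := by rw [hs]; exact Real.sqrt_pos.2 hK'0
    have hlog : Real.log K' ≤ 2 * s := by
      rw [← hs2, Real.log_mul hs0.ne' hs0.ne']
      have := Real.log_le_sub_one_of_pos hs0
      linarith
    have hW : 4 * (W : ℝ) ≤ s := by
      rw [hs]
      apply Real.le_sqrt_of_sq_le
      have : ((16 * W ^ 2 : ℕ) : ℝ) ≤ K' := by exact_mod_cast (by omega : 16 * W ^ 2 ≤ K')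
      push_cast at this
      nlinarith
    have : (e : ℝ) ≤ K' := by
      calc (e : ℝ) ≤ 2 * W * Real.log K' := heK'
        _ ≤ 2 * W * (2 * s) := mul_le_mul_of_nonneg_left hlog (by positivity)
        _ = (4 * W) * s := by ring
        _ ≤ s * s := mul_le_mul_of_nonneg_right hW hs0.le
        _ = K' := hs2
    exact_mod_cast this
  have heKl : (e : ℝ) ≤ ((2 * W : ℕ) : ℝ) * Real.log ((K' + e : ℕ) : ℝ) := by
    refine heK'.trans ?_
    push_cast
    apply mul_le_mul_of_nonneg_left _ (by positivity)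
    apply Real.log_le_log hK'0
    have : (0 : ℝ) ≤ e := Nat.cast_nonneg _
    linarith
  have c4 : Nat.log 2 K + 1 ≤ 2 * (Nat.log 2 K' + 1) := by
    have h2 : K ≤ K' * 2 := by omega
    have h3 := Nat.log_mono_right (b := 2) h2
    rw [Nat.log_mul_base (by norm_num) (by omega)] at h3
    omega
  -- the sequence
  have hex : ∀ j : ℕ, ∃ a ∈ A, b ^ j ≤ a ∧ a ≤ l * b ^ j := fun j => hA (b ^ j) (Nat.one_le_pow _ _ hbn)
  choose u hu1 hu2 hu3 using hex
  have hu4 : ∀ j, u j + b ^ j ≤ u (j + 1) := by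
    intro j
    have h1 := hu3 j
    have h2 := hu2 (j + 1)
    have h3 : b ^ (j + 1) = 4 * l * b ^ j := by rw [pow_succ, mul_comm, hbl]
    rw [h3] at h2
    have h4 : 0 < b ^ j := Nat.pow_pos hbn
    nlinarith
  have hmono : StrictMono u := strictMono_nat_of_lt_succ (fun j => by
    have := hu4 j
    have h4 : 0 < b ^ j := Nat.pow_pos hbn
    omega)
  -- the blocks
  obtain ⟨n, lo, sz, J, hn, hsz, hdis, hJ, hlo, hhi, hDense⟩ := hC K' (by omega)
  have hszK' : ∀ i < n, lo i + sz i ≤ K' - 2 := fun i hi => by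
    have := (hsz i hi).2.2
    omega
  obtain ⟨Ω, hΩ⟩ : ∃ Ω, Ω = Fintype.piFinset (fun i : Fin n => range (sz i)) := ⟨_, rfl⟩
  obtain ⟨pr, hpr⟩ : ∃ pr : ℝ, pr = ∏ i : Fin n, (1 / (sz i : ℝ)) := ⟨_, rfl⟩
  obtain ⟨Y, hY⟩ : ∃ Y : (Fin n → ℕ) → ℤ, Y = fun ω => (N : ℤ) - ∑ i : Fin n, ((u (lo i + ω i) : ℕ) : ℤ) := ⟨_, rfl⟩
  have hDpos : 0 < D * (Nat.log 2 K + 1) := Nat.mul_pos (by omega) (Nat.succ_pos _)
  have hdiv : ∀ w w' : ℕ, w ≤ w' → w / (2 * D * (Nat.log 2 K' + 1)) ≤ w' / (D * (Nat.log 2 K + 1)) := by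
    intro w w' hww
    have g1 : D * (Nat.log 2 K + 1) ≤ 2 * D * (Nat.log 2 K' + 1) := by
      calc D * (Nat.log 2 K + 1) ≤ D * (2 * (Nat.log 2 K' + 1)) := Nat.mul_le_mul_left _ c4
        _ = _ := by ring
    exact (Nat.div_le_div_left g1 hDpos).trans (Nat.div_le_div_right hww)
  have hlaw : ∀ h : ℕ, 1 ≤ h → Nat.log b h ≤ e → TLaw b 20 c V K Ω (fun _ => pr) (fun ω => (h : ℤ) * Y ω) := by
    intro h hh1 hhe
    obtain ⟨t, ht⟩ : ∃ t, t = Nat.log b h := ⟨_, rfl⟩
    rw [← ht] at hhe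
    have ht1 : b ^ t ≤ h := by rw [ht]; exact Nat.pow_log_le_self b (by omega)
    have ht2 : h < b ^ (t + 1) := by rw [ht]; exact Nat.lt_pow_succ_log_self (by omega) _
    have hstep := us_step b h t l hb u ht1 ht2 (by omega) hu2 hu3 hu4
    have hDense' : Pool.Agent.Y885.Dense 20 ((c₀ + 2 * W : ℕ) : ℝ) K (J.image (fun j => j + t)) := by
      have := dense_shift (c₀ : ℝ) ((2 * W : ℕ) : ℝ) (Nat.cast_nonneg _) K' e t (by omega) hhe heKl J hDense
      rw [hK, Nat.cast_add]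
      exact this
    have hbk := block_law b B c (c₀ + 2 * W) V n n K hb (by omega) κ ε₁ (40 * ((V : ℝ) / κ ^ 2 + 1)) hκ0 hε₁ D
      (by omega) hDε le_rfl (fun i => lo i + t) sz (J.image (fun j => j + t))
      (fun i hi => (hsz i hi).1) (fun j => by
        rw [mem_image]
        constructor
        · rintro ⟨j', hj', rfl⟩
          obtain ⟨i, hi, c', hc', rfl⟩ := (hJ j').1 hj'
          exact ⟨i, hi, c', hc', by omega⟩
        · rintro ⟨i, hi, c', hc', rfl⟩
          exact ⟨lo i + c', (hJ _).2 ⟨i, hi, c', hc', rfl⟩, by omega⟩)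
      (fun i hi w hw => by
        have g1 := hlo i hi w (by omega)
        have g2 := hdiv w w le_rfl
        omega)
      (fun i hi w hw hw2 => by
        rcases Nat.lt_or_ge (K' + 1) w with g0 | g0
        · have g1 := hhi i hi (K' + 1) le_rfl (by have := (hsz i hi).1; omega)
          have g2 := hdiv (K' + 1) w g0.le
          omega
        · have g1 := hhi i hi w g0 (by omega)
          have g2 := hdiv w w le_rfl
          omega)
      (us b h t u) (fun j => (hstep j).1) (fun j => us b h t u (j + 1) - us b h t u j) (fun j => rfl)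
      (fun j => by rw [hB]; exact (hstep j).2) hDense' ((h : ℤ) * N)
      (fun J hJ S hS h => hK₁ K (by omega) J hJ S hS h)
    have hfun : (fun ω : Fin n → ℕ => (h : ℤ) * N - ∑ i : Fin n, (if (i : ℕ) = n then 0 else
        ((us b h t u (lo i + t + ω i) : ℕ) : ℤ))) = fun ω => (h : ℤ) * Y ω := by
      funext ω
      rw [hY]
      simp only
      rw [mul_sub, mul_sum]
      congr 1
      apply sum_congr rfl
      intro i _
      rw [if_neg (by have := i.2; omega)]
      unfold us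
      rw [if_neg (by omega), show lo i + t + ω i - t = lo i + ω i by omega]
      push_cast
      ring
    rw [hΩ, hpr, ← hfun]
    exact hbk
  have hpr0 : 0 < pr := by
    rw [hpr]
    apply prod_pos
    intro i _
    have : (0 : ℝ) < sz i := by exact_mod_cast (hsz i i.2).1
    positivity
  have hprΩ : (Ω.card : ℝ) * pr = 1 := by
    rw [hΩ, hpr, Fintype.card_piFinset]
    simp only [card_range]
    push_cast
    rw [← prod_mul_distrib]
    apply prod_eq_one
    intro i _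
    have : (0 : ℝ) < sz i := by exact_mod_cast (hsz i i.2).1
    field_simp
  -- the positions
  have hpos : ∀ ω ∈ Ω, ∀ i : Fin n, ω i < sz i := by
    intro ω hω i
    rw [hΩ, Fintype.mem_piFinset] at hω
    exact mem_range.1 (hω i)
  have hinj : ∀ ω ∈ Ω, ∀ i i' : Fin n, lo i + ω i = lo i' + ω i' → i = i' := by
    intro ω hω i i' h
    by_contra hne
    have h1 := hpos ω hω i
    have h2 := hpos ω hω i'
    rcases hdis i i.2 i' i'.2 (fun h3 => hne (Fin.ext h3)) with h3 | h3 <;> omega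
  obtain ⟨Sf, hSf⟩ : ∃ Sf : (Fin n → ℕ) → Finset ℕ, Sf = fun ω => (univ : Finset (Fin n)).image (fun i : Fin n => u (lo i + ω i)) := ⟨_, rfl⟩
  have hSsum : ∀ ω ∈ Ω, ((∑ a ∈ Sf ω, a : ℕ) : ℤ) = ∑ i : Fin n, ((u (lo i + ω i) : ℕ) : ℤ) := by
    intro ω hω
    rw [hSf]
    simp only
    rw [sum_image]
    · push_cast
      rfl
    · intro i _ i' _ h
      exact hinj ω hω i i' (hmono.injective h)
  have hSsmall : ∀ ω ∈ Ω, 2 * ∑ a ∈ Sf ω, a ≤ N := by
    intro ω hω
    have h1 : Sf ω ⊆ (range (K' - 1)).image u := by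
      intro a ha
      rw [hSf] at ha
      obtain ⟨i, _, hia⟩ := mem_image.1 ha
      refine mem_image.2 ⟨lo i + ω i, mem_range.2 ?_, hia⟩
      have h2 := hpos ω hω i
      have h3 := hszK' i i.2
      omega
    have h2 : ∑ a ∈ Sf ω, a ≤ ∑ a ∈ (range (K' - 1)).image u, a := sum_le_sum_of_subset h1
    have h3 : ∑ a ∈ (range (K' - 1)).image u, a = ∑ j ∈ range (K' - 1), u j := by
      rw [sum_image]
      intro a _ b _ h
      exact hmono.injective h
    have h4 := sum_small b l (K' - 1) (by omega) u hu3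
    rw [h3] at h2
    omega
  have hYS : ∀ ω ∈ Ω, Y ω = (N : ℤ) - ((∑ a ∈ Sf ω, a : ℕ) : ℤ) := by
    intro ω hω
    rw [hSsum ω hω, hY]
  have hYlow : ∀ ω ∈ Ω, (N : ℤ) ≤ 2 * Y ω ∧ Y ω ≤ N := by
    intro ω hω
    rw [hYS ω hω]
    have := hSsmall ω hω
    have h2 : ((2 * ∑ a ∈ Sf ω, a : ℕ) : ℤ) ≤ N := by exact_mod_cast this
    have h3 : (0 : ℤ) ≤ ((∑ a ∈ Sf ω, a : ℕ) : ℤ) := Int.natCast_nonneg _
    rw [Nat.cast_mul] at h2
    constructor
    · push_cast at h2 h3 ⊢
      linarith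
    · linarith
  have hsum1 : ∑ ω ∈ Ω, (fun _ : Fin n → ℕ => pr) ω = 1 := by
    rw [sum_const, nsmul_eq_mul, hprΩ]
  -- the conclusion
  by_contra hcon
  push Not at hcon
  have hmain := hP (Fin n → ℕ) Ω (fun _ => pr) Y hsum1 hlaw hYlow
    (fun _ => True) (fun _ => instDecidableTrue) (fun ω hω _ h1 => by
      have hcard : ((Sf ω).card : ℝ) ≤ C * 25 * Real.log (Real.log N) ^ 2 := by
        have c1 : (Sf ω).card ≤ n := by
          rw [hSf]
          refine card_image_le.trans ?_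
          rw [card_univ, Fintype.card_fin]
        have c2 := hN₁ N (by omega)
        rw [← hK'] at c2
        have c3 : ((Sf ω).card : ℝ) ≤ C * ((Nat.log 2 K' + 1 : ℕ) : ℝ) ^ 2 := by exact_mod_cast c1.trans hn
        refine c3.trans ?_
        calc (C : ℝ) * ((Nat.log 2 K' + 1 : ℕ) : ℝ) ^ 2 ≤ C * (5 * Real.log (Real.log N)) ^ 2 := by
              apply mul_le_mul_of_nonneg_left _ (Nat.cast_nonneg _)
              exact pow_le_pow_left₀ (Nat.cast_nonneg _) c2 2
          _ = _ := by ring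
      refine hcon (Sf ω) ?_ hcard (hSsmall ω hω) ?_
      · intro a ha
        rw [hSf] at ha
        obtain ⟨i, _, hia⟩ := mem_image.1 ha
        rw [← hia]
        exact hu1 _
      · rw [← hYS ω hω]
        exact h1)
  simp only [if_true] at hmain
  rw [sum_const, nsmul_eq_mul, hprΩ] at hmain
  norm_num at hmain

end Pool.Agent.Y454.RM
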